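import Pool.Agent.MWS.StmtsA
import Pool.Agent.MVO.Push

set_option autoImplicit false

namespace Pool.Agent.MWS.H37

open Pool.Agent.Helper14_MV Pool.Agent.Helper2_MV Pool.Agent.MVO Pool.Agent.MWL Pool.Agent.MWS

theorem chk : ChkStmt := by
  intro θ k a a' c P Q h
  have h1 := rr_ins θ P Q (fun _ => [c]) (blkOk_mw k a) (blkOk_mw k a') h
  have h2 : ∀ n : ℕ, (List.replicate n 0).flatMap (fun _ : ℕ => [c]) = List.replicate n c := by
    intro n
    induction n with
    | zero => rfl
    | succ n ih => rw [List.replicate_succ, List.flatMap_cons, ih, List.replicate_succ]; rfl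
  simp only [h2] at h1
  exact h1

end Pool.Agent.MWS.H37
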